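import Pool.Agent.TH125.Tw.Torsion

/-!
# Derived invariance of Hodge numbers: the edge of the Hodge diamond
-/

set_option autoImplicit false

namespace Pool.Agent.Q94.DH

open Pool.Agent.TH125.Tw Finset

variable {n : ℕ} {X Y : Twisted n}

theorem edge_zero (Φ : Transform X Y) :
    X.hodgeNumber 0 n = Y.hodgeNumber 0 n := by
  have r := (relations Φ (p := 0) (q := n) (by omega)).2
  have h2 : min 0 n = 0 := by omega
  have h3 : (range (0 + 1)).filter (fun i => Even i ∧ 2 ≤ i) = ∅ := by decide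
  rw [Twisted.evenDiagonal, Twisted.evenDiagonal, h2, h3, sum_empty, sum_empty] at r
  omega

theorem edge_one (Φ : Transform X Y) (h : 1 ≤ n) :
    X.hodgeNumber 0 (n - 1) = Y.hodgeNumber 0 (n - 1) := by
  have h1 := column_sum Φ (a := 0) (b := n - 1) (t := 1) (Or.inl rfl) (by omega)
  have h2 : ∀ Z : Twisted n, Z.hodgeNumber 1 n = Z.hodgeNumber 0 (n - 1) :=
    fun Z => Z.dim_eq (by omega) (by omega)
  simp only [sum_range_succ, range_zero, sum_empty, zero_add, add_zero] at h1
  have h3 : n - 1 + 1 = n := by omega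
  rw [h3, h2, h2] at h1
  omega

theorem edge_two (Φ : Transform X Y) (h : 2 ≤ n) :
    X.hodgeNumber 0 (n - 2) = Y.hodgeNumber 0 (n - 2) ∧
      X.hodgeNumber 1 (n - 1) = Y.hodgeNumber 1 (n - 1) := by
  have h1 := relations Φ (p := 1) (q := n - 1) (by omega)
  have h2 : min 1 (n - 1) = 1 := by omega
  have h3 : (range (1 + 1)).filter (fun i => Odd i) = {1} := by decide
  have h5 : (range (1 + 1)).filter (fun i => Even i ∧ 2 ≤ i) = ∅ := by decide
  have h4 : n - 1 - 1 = n - 2 := by omega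
  rw [Twisted.oddDiagonal, Twisted.oddDiagonal, Twisted.evenDiagonal, Twisted.evenDiagonal,
    h2, h3, h5, sum_singleton, sum_singleton, sum_empty, sum_empty, h4] at h1
  exact ⟨h1.1, by omega⟩

theorem edge_three (Φ : Transform X Y) (h : 3 ≤ n) :
    X.hodgeNumber 0 (n - 3) + X.hodgeNumber 1 (n - 2) =
      Y.hodgeNumber 0 (n - 3) + Y.hodgeNumber 1 (n - 2) := by
  have h1 := column_sum Φ (a := 0) (b := n - 3) (t := 3) (Or.inl rfl) (by omega)
  have h2 : ∀ Z : Twisted n, Z.hodgeNumber 2 (n - 1) = Z.hodgeNumber 1 (n - 2) :=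
    fun Z => Z.dim_eq (by omega) (by omega)
  have h3 : ∀ Z : Twisted n, Z.hodgeNumber 3 n = Z.hodgeNumber 0 (n - 3) :=
    fun Z => Z.dim_eq (by omega) (by omega)
  simp only [sum_range_succ, range_zero, sum_empty, zero_add, add_zero] at h1
  have e1 : n - 3 + 1 = n - 2 := by omega
  have e2 : n - 3 + 2 = n - 1 := by omega
  have e3 : n - 3 + 3 = n := by omega
  rw [e1, e2, e3, h2, h2, h3, h3] at h1
  omega

theorem edge_four (Φ : Transform X Y) (h : 4 ≤ n) :
    X.hodgeNumber 1 (n - 3) = Y.hodgeNumber 1 (n - 3) ∧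
      X.hodgeNumber 2 (n - 2) + 2 * X.hodgeNumber 0 (n - 4) =
        Y.hodgeNumber 2 (n - 2) + 2 * Y.hodgeNumber 0 (n - 4) := by
  have h1 := relations Φ (p := 2) (q := n - 2) (by omega)
  have h2 : min 2 (n - 2) = 2 := by omega
  have h3 : (range (2 + 1)).filter (fun i => Odd i) = {1} := by decide
  have h5 : (range (2 + 1)).filter (fun i => Even i ∧ 2 ≤ i) = {2} := by decide
  have h4 : n - 2 - 1 = n - 3 := by omega
  have h6 : n - 2 - 2 = n - 4 := by omega
  rw [Twisted.oddDiagonal, Twisted.oddDiagonal, Twisted.evenDiagonal, Twisted.evenDiagonal,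
    h2, h3, h5, sum_singleton, sum_singleton, sum_singleton, sum_singleton, h4, h6] at h1
  exact h1

/-- The alternating sum `∑ (-1)^q h^{p,q}`, the signature if `n` is even. -/
noncomputable def alternating {n : ℕ} (V : Twisted n) : ℤ :=
  ∑ p ∈ range (n + 1), ∑ q ∈ range (n + 1), (-1) ^ q * (V.hodgeNumber p q : ℤ)

end Pool.Agent.Q94.DH
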