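import Pool.Agent.TH125.Tw.Torsion

/-!
# Derived invariance of Hodge numbers: sixfolds with torsion canonical class
-/

set_option autoImplicit false

namespace Pool.Agent.Q94.DH

open Pool.Agent.TH125.Tw Finset

/-- The Betti number `b_k = ∑_{p+q=k} h^{p,q}`. -/
noncomputable def betti {n : ℕ} (V : Twisted n) (k : ℕ) : ℕ :=
  ∑ p ∈ range (k + 1), V.hodgeNumber p (k - p)

/-- The arithmetic of the relations in dimension six. -/
theorem six_aux (f g : ℕ → ℕ → ℕ)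
    (fc : ∀ p q, f p q = f q p) (gc : ∀ p q, g p q = g q p)
    (fd : ∀ p q, p ≤ 6 → q ≤ 6 → f p q = f (6 - q) (6 - p))
    (gd : ∀ p q, p ≤ 6 → q ≤ 6 → g p q = g (6 - q) (6 - p))
    (h00 : f 0 0 = g 0 0) (h01 : f 0 1 = g 0 1) (h02 : f 0 2 = g 0 2)
    (h22 : f 2 2 + f 0 0 = g 2 2 + g 0 0)
    (h33 : f 3 3 + 2 * f 1 1 = g 3 3 + 2 * g 1 1)
    (h31 : f 3 1 = g 3 1)
    (h42 : f 4 2 + 2 * f 2 0 = g 4 2 + 2 * g 2 0)
    (h40 : f 4 0 = g 4 0) (h51 : f 5 1 = g 5 1) (h60 : f 6 0 = g 6 0)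
    (h50 : f 5 0 + f 6 1 = g 5 0 + g 6 1)
    (h30 : f 3 0 + f 4 1 + f 5 2 + f 6 3 = g 3 0 + g 4 1 + g 5 2 + g 6 3)
    (h10 : f 1 0 + f 2 1 + f 3 2 + f 4 3 + f 5 4 + f 6 5 =
      g 1 0 + g 2 1 + g 3 2 + g 4 3 + g 5 4 + g 6 5)
    (hf : 3 * ∑ p ∈ range 7, ∑ q ∈ range 7, (-1) ^ (p + q) * (2 * (p : ℤ) - 6) ^ 2 * (f p q : ℤ) =
      6 * ∑ p ∈ range 7, ∑ q ∈ range 7, (-1) ^ (p + q) * (f p q : ℤ))
    (hg : 3 * ∑ p ∈ range 7, ∑ q ∈ range 7, (-1) ^ (p + q) * (2 * (p : ℤ) - 6) ^ 2 * (g p q : ℤ) =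
      6 * ∑ p ∈ range 7, ∑ q ∈ range 7, (-1) ^ (p + q) * (g p q : ℤ)) :
    (f 1 0 = g 1 0 ∧ f 2 0 = g 2 0 ∧ f 4 0 = g 4 0 ∧ f 5 0 = g 5 0 ∧ f 6 0 = g 6 0 ∧
      f 3 1 = g 3 1 ∧ f 5 1 = g 5 1 ∧ f 2 2 = g 2 2 ∧ f 4 2 = g 4 2) ∧
    (f 3 0 + f 4 1 = g 3 0 + g 4 1 ∧ f 2 1 + f 3 2 = g 2 1 + g 3 2 ∧
      f 3 3 + 2 * f 1 1 = g 3 3 + 2 * g 1 1 ∧
      (f 1 1 : ℤ) - g 1 1 = ((f 3 0 : ℤ) - g 3 0) + ((f 2 1 : ℤ) - g 2 1)) := by
  have f1 := fc 1 0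
  have f2 := fc 2 0
  have f3 := fc 3 0
  have f4 := fc 4 0
  have f5 := fc 5 0
  have f6 := fc 2 1
  have f7 := fc 3 1
  have f8 := fc 4 1
  have f9 := fc 5 1
  have f10 := fc 3 2
  have f11 := fc 4 2
  have f12 := fc 5 2
  have f13 := fc 4 3
  have f14 := fc 5 3
  have f15 := fc 5 4
  have f16 := fc 6 0
  have f17 := fc 6 1
  have f18 := fc 6 2
  have f19 := fc 6 3
  have f20 := fc 6 4
  have f21 := fc 6 5
  have g1 := gc 1 0
  have g2 := gc 2 0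
  have g3 := gc 3 0
  have g4 := gc 4 0
  have g5 := gc 5 0
  have g6 := gc 2 1
  have g7 := gc 3 1
  have g8 := gc 4 1
  have g9 := gc 5 1
  have g10 := gc 3 2
  have g11 := gc 4 2
  have g12 := gc 5 2
  have g13 := gc 4 3
  have g14 := gc 5 3
  have g15 := gc 5 4
  have g16 := gc 6 0
  have g17 := gc 6 1
  have g18 := gc 6 2
  have g19 := gc 6 3
  have g20 := gc 6 4
  have g21 := gc 6 5
  have a1 : f 6 6 = f 0 0 := fd 6 6 (by norm_num) (by norm_num)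
  have a2 : f 5 5 = f 1 1 := fd 5 5 (by norm_num) (by norm_num)
  have a3 : f 4 4 = f 2 2 := fd 4 4 (by norm_num) (by norm_num)
  have a4 : f 6 5 = f 1 0 := fd 6 5 (by norm_num) (by norm_num)
  have a5 : f 6 4 = f 2 0 := fd 6 4 (by norm_num) (by norm_num)
  have a6 : f 6 3 = f 3 0 := fd 6 3 (by norm_num) (by norm_num)
  have a7 : f 6 2 = f 4 0 := fd 6 2 (by norm_num) (by norm_num)
  have a8 : f 6 1 = f 5 0 := fd 6 1 (by norm_num) (by norm_num)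
  have a9 : f 5 4 = f 2 1 := fd 5 4 (by norm_num) (by norm_num)
  have a10 : f 5 3 = f 3 1 := fd 5 3 (by norm_num) (by norm_num)
  have a11 : f 5 2 = f 4 1 := fd 5 2 (by norm_num) (by norm_num)
  have a12 : f 4 3 = f 3 2 := fd 4 3 (by norm_num) (by norm_num)
  have b1 : g 6 6 = g 0 0 := gd 6 6 (by norm_num) (by norm_num)
  have b2 : g 5 5 = g 1 1 := gd 5 5 (by norm_num) (by norm_num)
  have b3 : g 4 4 = g 2 2 := gd 4 4 (by norm_num) (by norm_num)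
  have b4 : g 6 5 = g 1 0 := gd 6 5 (by norm_num) (by norm_num)
  have b5 : g 6 4 = g 2 0 := gd 6 4 (by norm_num) (by norm_num)
  have b6 : g 6 3 = g 3 0 := gd 6 3 (by norm_num) (by norm_num)
  have b7 : g 6 2 = g 4 0 := gd 6 2 (by norm_num) (by norm_num)
  have b8 : g 6 1 = g 5 0 := gd 6 1 (by norm_num) (by norm_num)
  have b9 : g 5 4 = g 2 1 := gd 5 4 (by norm_num) (by norm_num)
  have b10 : g 5 3 = g 3 1 := gd 5 3 (by norm_num) (by norm_num)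
  have b11 : g 5 2 = g 4 1 := gd 5 2 (by norm_num) (by norm_num)
  have b12 : g 4 3 = g 3 2 := gd 4 3 (by norm_num) (by norm_num)
  simp only [sum_range_succ, range_zero, sum_empty, zero_add] at hf hg
  norm_num at hf hg
  have k10 : f 1 0 = g 1 0 := by omega
  have k20 : f 2 0 = g 2 0 := by omega
  have k50 : f 5 0 = g 5 0 := by omega
  have k22 : f 2 2 = g 2 2 := by omega
  have k42 : f 4 2 = g 4 2 := by omega
  have k30 : f 3 0 + f 4 1 = g 3 0 + g 4 1 := by omega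
  have k21 : f 2 1 + f 3 2 = g 2 1 + g 3 2 := by omega
  refine ⟨⟨k10, k20, h40, k50, h60, h31, h51, k22, k42⟩, k30, k21, h33, ?_⟩
  omega

/-- The Hodge numbers of sixfolds. -/
theorem six_core {X Y : TorsionCanonical 6} (hX : LibgoberWood X.base)
    (hY : LibgoberWood Y.base) (Φ₀ : Transform X.base Y.base)
    (Φ₁ : Transform X.twist Y.twist) :
    (X.base.hodgeNumber 1 0 = Y.base.hodgeNumber 1 0 ∧
      X.base.hodgeNumber 2 0 = Y.base.hodgeNumber 2 0 ∧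
      X.base.hodgeNumber 4 0 = Y.base.hodgeNumber 4 0 ∧
      X.base.hodgeNumber 5 0 = Y.base.hodgeNumber 5 0 ∧
      X.base.hodgeNumber 6 0 = Y.base.hodgeNumber 6 0 ∧
      X.base.hodgeNumber 3 1 = Y.base.hodgeNumber 3 1 ∧
      X.base.hodgeNumber 5 1 = Y.base.hodgeNumber 5 1 ∧
      X.base.hodgeNumber 2 2 = Y.base.hodgeNumber 2 2 ∧
      X.base.hodgeNumber 4 2 = Y.base.hodgeNumber 4 2) ∧
    (X.base.hodgeNumber 3 0 + X.base.hodgeNumber 4 1 =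
        Y.base.hodgeNumber 3 0 + Y.base.hodgeNumber 4 1 ∧
      X.base.hodgeNumber 2 1 + X.base.hodgeNumber 3 2 =
        Y.base.hodgeNumber 2 1 + Y.base.hodgeNumber 3 2 ∧
      X.base.hodgeNumber 3 3 + 2 * X.base.hodgeNumber 1 1 =
        Y.base.hodgeNumber 3 3 + 2 * Y.base.hodgeNumber 1 1 ∧
      (X.base.hodgeNumber 1 1 : ℤ) - Y.base.hodgeNumber 1 1 =
        ((X.base.hodgeNumber 3 0 : ℤ) - Y.base.hodgeNumber 3 0) +
          ((X.base.hodgeNumber 2 1 : ℤ) - Y.base.hodgeNumber 2 1)) := by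
  have h00 : X.base.hodgeNumber 0 0 = Y.base.hodgeNumber 0 0 := by
    rw [X.connected, Y.connected]
  have h01 := TorsionCanonical.hodge_one Φ₁ (by norm_num)
  have h02 := TorsionCanonical.hodge_two Φ₁ (by norm_num)
  have r33 := relations Φ₀ (p := 3) (q := 3) rfl
  have r42 := relations Φ₀ (p := 4) (q := 2) rfl
  have r51 := relations Φ₀ (p := 5) (q := 1) rfl
  have r60 := relations Φ₀ (p := 6) (q := 0) rfl
  have c50 := column_sum Φ₀ (a := 5) (b := 0) (t := 1) (Or.inr rfl) rfl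
  have c30 := column_sum Φ₀ (a := 3) (b := 0) (t := 3) (Or.inr rfl) rfl
  have c10 := column_sum Φ₀ (a := 1) (b := 0) (t := 5) (Or.inr rfl) rfl
  have e1 : (range (min 3 3 + 1)).filter (fun i => Odd i) = {1, 3} := by decide
  have e2 : (range (min 3 3 + 1)).filter (fun i => Even i ∧ 2 ≤ i) = {2} := by decide
  have e3 : (range (min 4 2 + 1)).filter (fun i => Odd i) = {1} := by decide
  have e4 : (range (min 4 2 + 1)).filter (fun i => Even i ∧ 2 ≤ i) = {2} := by decide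
  have e5 : (range (min 5 1 + 1)).filter (fun i => Odd i) = {1} := by decide
  have e6 : (range (min 5 1 + 1)).filter (fun i => Even i ∧ 2 ≤ i) = ∅ := by decide
  have e7 : (range (min 6 0 + 1)).filter (fun i => Odd i) = ∅ := by decide
  have e8 : (range (min 6 0 + 1)).filter (fun i => Even i ∧ 2 ≤ i) = ∅ := by decide
  have e9 : ((1 : ℕ) ∉ ({3} : Finset ℕ)) := by decide
  simp only [Twisted.oddDiagonal, Twisted.evenDiagonal, e1, e2, e3, e4, e5, e6, e7, e8,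
    sum_insert e9, sum_singleton, sum_empty, mul_zero, add_zero] at r33 r42 r51 r60
  norm_num at r33 r42 r51 r60
  simp only [sum_range_succ, range_zero, sum_empty, zero_add, add_zero] at c50 c30 c10
  norm_num at c50 c30 c10
  have hf := hX
  have hg := hY
  rw [LibgoberWood, moment, euler] at hf hg
  exact six_aux X.base.hodgeNumber Y.base.hodgeNumber X.symmetry Y.symmetry
    (fun p q hp hq => X.base.dim_eq (by omega) (by omega))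
    (fun p q hp hq => Y.base.dim_eq (by omega) (by omega)) h00 h01 h02 r33.1 r33.2 r42.1 r42.2
    r51.1 r51.2 r60 c50 c30 c10 hf hg

end Pool.Agent.Q94.DH

namespace Pool.Agent.Q94.DH

open Pool.Agent.TH125.Tw Finset

/-- The types `(p, q)` of the Hodge numbers of sixfolds which are not controlled. -/
def openTypes : Finset (ℕ × ℕ) :=
  {(1, 1), (5, 5), (3, 3), (3, 0), (0, 3), (6, 3), (3, 6), (4, 1), (1, 4), (5, 2), (2, 5),
    (2, 1), (1, 2), (5, 4), (4, 5), (3, 2), (2, 3), (4, 3), (3, 4)}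

theorem six_types (f g : ℕ → ℕ → ℕ)
    (fc : ∀ p q, f p q = f q p) (gc : ∀ p q, g p q = g q p)
    (fd : ∀ p q, p ≤ 6 → q ≤ 6 → f p q = f (6 - q) (6 - p))
    (gd : ∀ p q, p ≤ 6 → q ≤ 6 → g p q = g (6 - q) (6 - p))
    (fz : ∀ p q, 6 < p ∨ 6 < q → f p q = 0) (gz : ∀ p q, 6 < p ∨ 6 < q → g p q = 0)
    (h00 : f 0 0 = g 0 0) (h10 : f 1 0 = g 1 0) (h20 : f 2 0 = g 2 0) (h40 : f 4 0 = g 4 0)
    (h50 : f 5 0 = g 5 0) (h60 : f 6 0 = g 6 0) (h31 : f 3 1 = g 3 1) (h51 : f 5 1 = g 5 1)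
    (h22 : f 2 2 = g 2 2) (h42 : f 4 2 = g 4 2)
    (k30 : f 3 0 + f 4 1 = g 3 0 + g 4 1) (k21 : f 2 1 + f 3 2 = g 2 1 + g 3 2)
    (k33 : f 3 3 + 2 * f 1 1 = g 3 3 + 2 * g 1 1)
    (k11 : (f 1 1 : ℤ) - g 1 1 = ((f 3 0 : ℤ) - g 3 0) + ((f 2 1 : ℤ) - g 2 1)) :
    (∀ p q, (p, q) ∉ openTypes → f p q = g p q) ∧
    (f 3 0 = g 3 0 → f 2 1 = g 2 1 → ∀ p q, f p q = g p q) := by
  have fc10 : f 1 0 = f 0 1 := fc 1 0
  have fc20 : f 2 0 = f 0 2 := fc 2 0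
  have fc21 : f 2 1 = f 1 2 := fc 2 1
  have fc30 : f 3 0 = f 0 3 := fc 3 0
  have fc31 : f 3 1 = f 1 3 := fc 3 1
  have fc32 : f 3 2 = f 2 3 := fc 3 2
  have fc40 : f 4 0 = f 0 4 := fc 4 0
  have fc41 : f 4 1 = f 1 4 := fc 4 1
  have fc42 : f 4 2 = f 2 4 := fc 4 2
  have fc43 : f 4 3 = f 3 4 := fc 4 3
  have fc50 : f 5 0 = f 0 5 := fc 5 0
  have fc51 : f 5 1 = f 1 5 := fc 5 1
  have fc52 : f 5 2 = f 2 5 := fc 5 2
  have fc53 : f 5 3 = f 3 5 := fc 5 3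
  have fc54 : f 5 4 = f 4 5 := fc 5 4
  have fc60 : f 6 0 = f 0 6 := fc 6 0
  have fc61 : f 6 1 = f 1 6 := fc 6 1
  have fc62 : f 6 2 = f 2 6 := fc 6 2
  have fc63 : f 6 3 = f 3 6 := fc 6 3
  have fc64 : f 6 4 = f 4 6 := fc 6 4
  have fc65 : f 6 5 = f 5 6 := fc 6 5
  have fd43 : f 4 3 = f 3 2 := fd 4 3 (by norm_num) (by norm_num)
  have fd44 : f 4 4 = f 2 2 := fd 4 4 (by norm_num) (by norm_num)
  have fd52 : f 5 2 = f 4 1 := fd 5 2 (by norm_num) (by norm_num)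
  have fd53 : f 5 3 = f 3 1 := fd 5 3 (by norm_num) (by norm_num)
  have fd54 : f 5 4 = f 2 1 := fd 5 4 (by norm_num) (by norm_num)
  have fd55 : f 5 5 = f 1 1 := fd 5 5 (by norm_num) (by norm_num)
  have fd61 : f 6 1 = f 5 0 := fd 6 1 (by norm_num) (by norm_num)
  have fd62 : f 6 2 = f 4 0 := fd 6 2 (by norm_num) (by norm_num)
  have fd63 : f 6 3 = f 3 0 := fd 6 3 (by norm_num) (by norm_num)
  have fd64 : f 6 4 = f 2 0 := fd 6 4 (by norm_num) (by norm_num)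
  have fd65 : f 6 5 = f 1 0 := fd 6 5 (by norm_num) (by norm_num)
  have fd66 : f 6 6 = f 0 0 := fd 6 6 (by norm_num) (by norm_num)
  have gc10 : g 1 0 = g 0 1 := gc 1 0
  have gc20 : g 2 0 = g 0 2 := gc 2 0
  have gc21 : g 2 1 = g 1 2 := gc 2 1
  have gc30 : g 3 0 = g 0 3 := gc 3 0
  have gc31 : g 3 1 = g 1 3 := gc 3 1
  have gc32 : g 3 2 = g 2 3 := gc 3 2
  have gc40 : g 4 0 = g 0 4 := gc 4 0
  have gc41 : g 4 1 = g 1 4 := gc 4 1
  have gc42 : g 4 2 = g 2 4 := gc 4 2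
  have gc43 : g 4 3 = g 3 4 := gc 4 3
  have gc50 : g 5 0 = g 0 5 := gc 5 0
  have gc51 : g 5 1 = g 1 5 := gc 5 1
  have gc52 : g 5 2 = g 2 5 := gc 5 2
  have gc53 : g 5 3 = g 3 5 := gc 5 3
  have gc54 : g 5 4 = g 4 5 := gc 5 4
  have gc60 : g 6 0 = g 0 6 := gc 6 0
  have gc61 : g 6 1 = g 1 6 := gc 6 1
  have gc62 : g 6 2 = g 2 6 := gc 6 2
  have gc63 : g 6 3 = g 3 6 := gc 6 3
  have gc64 : g 6 4 = g 4 6 := gc 6 4
  have gc65 : g 6 5 = g 5 6 := gc 6 5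
  have gd43 : g 4 3 = g 3 2 := gd 4 3 (by norm_num) (by norm_num)
  have gd44 : g 4 4 = g 2 2 := gd 4 4 (by norm_num) (by norm_num)
  have gd52 : g 5 2 = g 4 1 := gd 5 2 (by norm_num) (by norm_num)
  have gd53 : g 5 3 = g 3 1 := gd 5 3 (by norm_num) (by norm_num)
  have gd54 : g 5 4 = g 2 1 := gd 5 4 (by norm_num) (by norm_num)
  have gd55 : g 5 5 = g 1 1 := gd 5 5 (by norm_num) (by norm_num)
  have gd61 : g 6 1 = g 5 0 := gd 6 1 (by norm_num) (by norm_num)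
  have gd62 : g 6 2 = g 4 0 := gd 6 2 (by norm_num) (by norm_num)
  have gd63 : g 6 3 = g 3 0 := gd 6 3 (by norm_num) (by norm_num)
  have gd64 : g 6 4 = g 2 0 := gd 6 4 (by norm_num) (by norm_num)
  have gd65 : g 6 5 = g 1 0 := gd 6 5 (by norm_num) (by norm_num)
  have gd66 : g 6 6 = g 0 0 := gd 6 6 (by norm_num) (by norm_num)
  constructor
  · intro p q hpq
    by_cases h : p ≤ 6 ∧ q ≤ 6
    · obtain ⟨hp, hq⟩ := h
      rw [openTypes] at hpq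
      interval_cases p <;> interval_cases q <;> first | omega | exact absurd (by decide) hpq
    · rw [fz p q (by omega), gz p q (by omega)]
  · intro h1 h2 p q
    by_cases h : p ≤ 6 ∧ q ≤ 6
    · obtain ⟨hp, hq⟩ := h
      interval_cases p <;> interval_cases q <;> omega
    · rw [fz p q (by omega), gz p q (by omega)]

/-- The coefficients of the change of the Betti numbers. -/
def coeff (k : ℕ) : ℤ := ([0, 0, 1, 2, 0, -2, -2, -2, 0, 2, 1, 0, 0] : List ℤ).getD k 0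

theorem six_betti (f g : ℕ → ℕ → ℕ)
    (fc : ∀ p q, f p q = f q p) (gc : ∀ p q, g p q = g q p)
    (fd : ∀ p q, p ≤ 6 → q ≤ 6 → f p q = f (6 - q) (6 - p))
    (gd : ∀ p q, p ≤ 6 → q ≤ 6 → g p q = g (6 - q) (6 - p))
    (fz : ∀ p q, 6 < p ∨ 6 < q → f p q = 0) (gz : ∀ p q, 6 < p ∨ 6 < q → g p q = 0)
    (h00 : f 0 0 = g 0 0) (h10 : f 1 0 = g 1 0) (h20 : f 2 0 = g 2 0) (h40 : f 4 0 = g 4 0)
    (h50 : f 5 0 = g 5 0) (h60 : f 6 0 = g 6 0) (h31 : f 3 1 = g 3 1) (h51 : f 5 1 = g 5 1)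
    (h22 : f 2 2 = g 2 2) (h42 : f 4 2 = g 4 2)
    (k30 : f 3 0 + f 4 1 = g 3 0 + g 4 1) (k21 : f 2 1 + f 3 2 = g 2 1 + g 3 2)
    (k33 : f 3 3 + 2 * f 1 1 = g 3 3 + 2 * g 1 1)
    (k11 : (f 1 1 : ℤ) - g 1 1 = ((f 3 0 : ℤ) - g 3 0) + ((f 2 1 : ℤ) - g 2 1)) :
    ∀ k : ℕ, ((∑ p ∈ range (k + 1), f p (k - p) : ℕ) : ℤ) - (∑ p ∈ range (k + 1), g p (k - p) : ℕ)
      = coeff k * ((f 1 1 : ℤ) - g 1 1) := by
  have fc10 : f 1 0 = f 0 1 := fc 1 0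
  have fc20 : f 2 0 = f 0 2 := fc 2 0
  have fc21 : f 2 1 = f 1 2 := fc 2 1
  have fc30 : f 3 0 = f 0 3 := fc 3 0
  have fc31 : f 3 1 = f 1 3 := fc 3 1
  have fc32 : f 3 2 = f 2 3 := fc 3 2
  have fc40 : f 4 0 = f 0 4 := fc 4 0
  have fc41 : f 4 1 = f 1 4 := fc 4 1
  have fc42 : f 4 2 = f 2 4 := fc 4 2
  have fc43 : f 4 3 = f 3 4 := fc 4 3
  have fc50 : f 5 0 = f 0 5 := fc 5 0
  have fc51 : f 5 1 = f 1 5 := fc 5 1
  have fc52 : f 5 2 = f 2 5 := fc 5 2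
  have fc53 : f 5 3 = f 3 5 := fc 5 3
  have fc54 : f 5 4 = f 4 5 := fc 5 4
  have fc60 : f 6 0 = f 0 6 := fc 6 0
  have fc61 : f 6 1 = f 1 6 := fc 6 1
  have fc62 : f 6 2 = f 2 6 := fc 6 2
  have fc63 : f 6 3 = f 3 6 := fc 6 3
  have fc64 : f 6 4 = f 4 6 := fc 6 4
  have fc65 : f 6 5 = f 5 6 := fc 6 5
  have fd43 : f 4 3 = f 3 2 := fd 4 3 (by norm_num) (by norm_num)
  have fd44 : f 4 4 = f 2 2 := fd 4 4 (by norm_num) (by norm_num)
  have fd52 : f 5 2 = f 4 1 := fd 5 2 (by norm_num) (by norm_num)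
  have fd53 : f 5 3 = f 3 1 := fd 5 3 (by norm_num) (by norm_num)
  have fd54 : f 5 4 = f 2 1 := fd 5 4 (by norm_num) (by norm_num)
  have fd55 : f 5 5 = f 1 1 := fd 5 5 (by norm_num) (by norm_num)
  have fd61 : f 6 1 = f 5 0 := fd 6 1 (by norm_num) (by norm_num)
  have fd62 : f 6 2 = f 4 0 := fd 6 2 (by norm_num) (by norm_num)
  have fd63 : f 6 3 = f 3 0 := fd 6 3 (by norm_num) (by norm_num)
  have fd64 : f 6 4 = f 2 0 := fd 6 4 (by norm_num) (by norm_num)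
  have fd65 : f 6 5 = f 1 0 := fd 6 5 (by norm_num) (by norm_num)
  have fd66 : f 6 6 = f 0 0 := fd 6 6 (by norm_num) (by norm_num)
  have gc10 : g 1 0 = g 0 1 := gc 1 0
  have gc20 : g 2 0 = g 0 2 := gc 2 0
  have gc21 : g 2 1 = g 1 2 := gc 2 1
  have gc30 : g 3 0 = g 0 3 := gc 3 0
  have gc31 : g 3 1 = g 1 3 := gc 3 1
  have gc32 : g 3 2 = g 2 3 := gc 3 2
  have gc40 : g 4 0 = g 0 4 := gc 4 0
  have gc41 : g 4 1 = g 1 4 := gc 4 1
  have gc42 : g 4 2 = g 2 4 := gc 4 2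
  have gc43 : g 4 3 = g 3 4 := gc 4 3
  have gc50 : g 5 0 = g 0 5 := gc 5 0
  have gc51 : g 5 1 = g 1 5 := gc 5 1
  have gc52 : g 5 2 = g 2 5 := gc 5 2
  have gc53 : g 5 3 = g 3 5 := gc 5 3
  have gc54 : g 5 4 = g 4 5 := gc 5 4
  have gc60 : g 6 0 = g 0 6 := gc 6 0
  have gc61 : g 6 1 = g 1 6 := gc 6 1
  have gc62 : g 6 2 = g 2 6 := gc 6 2
  have gc63 : g 6 3 = g 3 6 := gc 6 3
  have gc64 : g 6 4 = g 4 6 := gc 6 4
  have gc65 : g 6 5 = g 5 6 := gc 6 5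
  have gd43 : g 4 3 = g 3 2 := gd 4 3 (by norm_num) (by norm_num)
  have gd44 : g 4 4 = g 2 2 := gd 4 4 (by norm_num) (by norm_num)
  have gd52 : g 5 2 = g 4 1 := gd 5 2 (by norm_num) (by norm_num)
  have gd53 : g 5 3 = g 3 1 := gd 5 3 (by norm_num) (by norm_num)
  have gd54 : g 5 4 = g 2 1 := gd 5 4 (by norm_num) (by norm_num)
  have gd55 : g 5 5 = g 1 1 := gd 5 5 (by norm_num) (by norm_num)
  have gd61 : g 6 1 = g 5 0 := gd 6 1 (by norm_num) (by norm_num)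
  have gd62 : g 6 2 = g 4 0 := gd 6 2 (by norm_num) (by norm_num)
  have gd63 : g 6 3 = g 3 0 := gd 6 3 (by norm_num) (by norm_num)
  have gd64 : g 6 4 = g 2 0 := gd 6 4 (by norm_num) (by norm_num)
  have gd65 : g 6 5 = g 1 0 := gd 6 5 (by norm_num) (by norm_num)
  have gd66 : g 6 6 = g 0 0 := gd 6 6 (by norm_num) (by norm_num)
  have fz0_7 : f 0 7 = 0 := fz 0 7 (by norm_num)
  have fz0_8 : f 0 8 = 0 := fz 0 8 (by norm_num)
  have fz0_9 : f 0 9 = 0 := fz 0 9 (by norm_num)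
  have fz0_10 : f 0 10 = 0 := fz 0 10 (by norm_num)
  have fz0_11 : f 0 11 = 0 := fz 0 11 (by norm_num)
  have fz0_12 : f 0 12 = 0 := fz 0 12 (by norm_num)
  have fz1_7 : f 1 7 = 0 := fz 1 7 (by norm_num)
  have fz1_8 : f 1 8 = 0 := fz 1 8 (by norm_num)
  have fz1_9 : f 1 9 = 0 := fz 1 9 (by norm_num)
  have fz1_10 : f 1 10 = 0 := fz 1 10 (by norm_num)
  have fz1_11 : f 1 11 = 0 := fz 1 11 (by norm_num)
  have fz2_7 : f 2 7 = 0 := fz 2 7 (by norm_num)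
  have fz2_8 : f 2 8 = 0 := fz 2 8 (by norm_num)
  have fz2_9 : f 2 9 = 0 := fz 2 9 (by norm_num)
  have fz2_10 : f 2 10 = 0 := fz 2 10 (by norm_num)
  have fz3_7 : f 3 7 = 0 := fz 3 7 (by norm_num)
  have fz3_8 : f 3 8 = 0 := fz 3 8 (by norm_num)
  have fz3_9 : f 3 9 = 0 := fz 3 9 (by norm_num)
  have fz4_7 : f 4 7 = 0 := fz 4 7 (by norm_num)
  have fz4_8 : f 4 8 = 0 := fz 4 8 (by norm_num)
  have fz5_7 : f 5 7 = 0 := fz 5 7 (by norm_num)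
  have fz7_0 : f 7 0 = 0 := fz 7 0 (by norm_num)
  have fz7_1 : f 7 1 = 0 := fz 7 1 (by norm_num)
  have fz7_2 : f 7 2 = 0 := fz 7 2 (by norm_num)
  have fz7_3 : f 7 3 = 0 := fz 7 3 (by norm_num)
  have fz7_4 : f 7 4 = 0 := fz 7 4 (by norm_num)
  have fz7_5 : f 7 5 = 0 := fz 7 5 (by norm_num)
  have fz8_0 : f 8 0 = 0 := fz 8 0 (by norm_num)
  have fz8_1 : f 8 1 = 0 := fz 8 1 (by norm_num)
  have fz8_2 : f 8 2 = 0 := fz 8 2 (by norm_num)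
  have fz8_3 : f 8 3 = 0 := fz 8 3 (by norm_num)
  have fz8_4 : f 8 4 = 0 := fz 8 4 (by norm_num)
  have fz9_0 : f 9 0 = 0 := fz 9 0 (by norm_num)
  have fz9_1 : f 9 1 = 0 := fz 9 1 (by norm_num)
  have fz9_2 : f 9 2 = 0 := fz 9 2 (by norm_num)
  have fz9_3 : f 9 3 = 0 := fz 9 3 (by norm_num)
  have fz10_0 : f 10 0 = 0 := fz 10 0 (by norm_num)
  have fz10_1 : f 10 1 = 0 := fz 10 1 (by norm_num)
  have fz10_2 : f 10 2 = 0 := fz 10 2 (by norm_num)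
  have fz11_0 : f 11 0 = 0 := fz 11 0 (by norm_num)
  have fz11_1 : f 11 1 = 0 := fz 11 1 (by norm_num)
  have fz12_0 : f 12 0 = 0 := fz 12 0 (by norm_num)
  have gz0_7 : g 0 7 = 0 := gz 0 7 (by norm_num)
  have gz0_8 : g 0 8 = 0 := gz 0 8 (by norm_num)
  have gz0_9 : g 0 9 = 0 := gz 0 9 (by norm_num)
  have gz0_10 : g 0 10 = 0 := gz 0 10 (by norm_num)
  have gz0_11 : g 0 11 = 0 := gz 0 11 (by norm_num)
  have gz0_12 : g 0 12 = 0 := gz 0 12 (by norm_num)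
  have gz1_7 : g 1 7 = 0 := gz 1 7 (by norm_num)
  have gz1_8 : g 1 8 = 0 := gz 1 8 (by norm_num)
  have gz1_9 : g 1 9 = 0 := gz 1 9 (by norm_num)
  have gz1_10 : g 1 10 = 0 := gz 1 10 (by norm_num)
  have gz1_11 : g 1 11 = 0 := gz 1 11 (by norm_num)
  have gz2_7 : g 2 7 = 0 := gz 2 7 (by norm_num)
  have gz2_8 : g 2 8 = 0 := gz 2 8 (by norm_num)
  have gz2_9 : g 2 9 = 0 := gz 2 9 (by norm_num)
  have gz2_10 : g 2 10 = 0 := gz 2 10 (by norm_num)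
  have gz3_7 : g 3 7 = 0 := gz 3 7 (by norm_num)
  have gz3_8 : g 3 8 = 0 := gz 3 8 (by norm_num)
  have gz3_9 : g 3 9 = 0 := gz 3 9 (by norm_num)
  have gz4_7 : g 4 7 = 0 := gz 4 7 (by norm_num)
  have gz4_8 : g 4 8 = 0 := gz 4 8 (by norm_num)
  have gz5_7 : g 5 7 = 0 := gz 5 7 (by norm_num)
  have gz7_0 : g 7 0 = 0 := gz 7 0 (by norm_num)
  have gz7_1 : g 7 1 = 0 := gz 7 1 (by norm_num)
  have gz7_2 : g 7 2 = 0 := gz 7 2 (by norm_num)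
  have gz7_3 : g 7 3 = 0 := gz 7 3 (by norm_num)
  have gz7_4 : g 7 4 = 0 := gz 7 4 (by norm_num)
  have gz7_5 : g 7 5 = 0 := gz 7 5 (by norm_num)
  have gz8_0 : g 8 0 = 0 := gz 8 0 (by norm_num)
  have gz8_1 : g 8 1 = 0 := gz 8 1 (by norm_num)
  have gz8_2 : g 8 2 = 0 := gz 8 2 (by norm_num)
  have gz8_3 : g 8 3 = 0 := gz 8 3 (by norm_num)
  have gz8_4 : g 8 4 = 0 := gz 8 4 (by norm_num)
  have gz9_0 : g 9 0 = 0 := gz 9 0 (by norm_num)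
  have gz9_1 : g 9 1 = 0 := gz 9 1 (by norm_num)
  have gz9_2 : g 9 2 = 0 := gz 9 2 (by norm_num)
  have gz9_3 : g 9 3 = 0 := gz 9 3 (by norm_num)
  have gz10_0 : g 10 0 = 0 := gz 10 0 (by norm_num)
  have gz10_1 : g 10 1 = 0 := gz 10 1 (by norm_num)
  have gz10_2 : g 10 2 = 0 := gz 10 2 (by norm_num)
  have gz11_0 : g 11 0 = 0 := gz 11 0 (by norm_num)
  have gz11_1 : g 11 1 = 0 := gz 11 1 (by norm_num)
  have gz12_0 : g 12 0 = 0 := gz 12 0 (by norm_num)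
  intro k
  by_cases hk : k ≤ 12
  · interval_cases k <;> simp only [sum_range_succ, range_zero, sum_empty, zero_add, coeff,
      List.getD_cons_succ, List.getD_cons_zero, Nat.cast_add] <;> norm_num <;> omega
  · have h1 : ∀ (v : ℕ → ℕ → ℕ), (∀ p q, 6 < p ∨ 6 < q → v p q = 0) →
        ∑ p ∈ range (k + 1), v p (k - p) = 0 := by
      intro v hv
      refine sum_eq_zero fun p hp => hv p (k - p) ?_
      rw [mem_range] at hp
      omega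
    have h2 : coeff k = 0 := by
      rw [coeff, List.getD_eq_default]
      simp
      omega
    rw [h1 f fz, h1 g gz, h2]
    simp

end Pool.Agent.Q94.DH
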